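import Pool.Agent.helper24_UT.Ch19

set_option autoImplicit false

/-!
# Liouville's function at `F(n) + a`, `n ≤ N ^ (1 / (3 d) + ε)`, for almost all constants `a`, in all progressions to all moduli, with arbitrary weights

Let `F` be a polynomial with integer coefficients of degree `d ≥ 1`, let `ε > 0` and `A`, `T` be fixed and let `N` be large. Let `u(n)` be arbitrary real
weights with `|u(n)| ≤ (log N) ^ T`. For all but at most `N / (log N) ^ A` of the integers `a` with `|a| ≤ N` the sums of `u(n) λ(F(n) + a)` over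
the `n ≤ y` in an arithmetic progression `s` modulo `q` are small in the mean square over ALL classes `s` to ALL moduli `q ≤ y / (log N) ^ B`, for ALL `y`
with `N ^ (1 / 3 + ε) ≤ y ^ d ≤ N`: the sum of their squares is at most `y ^ 2 / (log N) ^ A`, where the length `w(q, s) ≤ y` may be chosen in every class
as unfavourably as possible. In particular (`q = 1`) the sum of `λ(F(n) + a)` over `n ≤ y` is at most `y / (log N) ^ (A / 2)` for all
`y ≥ N ^ (1 / (3 d) + ε)`. The same holds for the function of Möbius.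

Proof. The values of `F` have nearly minimal additive energy of large order, so the correlations of `λ` along `F(n) + a`, with arbitrary weights
on the `n ≤ y`, are bounded by the mean square of the exponential sums of `λ` in intervals of length `y ^ d`
(`Pool.Agent.helper24_UT.Ch.t_MKLT`, the method of Mikawa, `y ^ d ≥ N ^ (1 / 3 + ε)`); the theorem of Barban, Davenport and Halberstam for sequences which
are equidistributed in classes to small moduli gives the large moduli.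
-/

namespace Pool.Agent.Results.MP_d639b3_nt.AlmostAllConstantsShort

open Finset Polynomial

/-- `λ(|v|)`, and `0` for `v = 0` -/
noncomputable def lam (v : ℤ) : ℝ := if v = 0 then 0 else (-1) ^ (ArithmeticFunction.cardFactors v.natAbs)

/-- `μ(|v|)`, and `0` for `v = 0` -/
noncomputable def mu (v : ℤ) : ℝ := ((ArithmeticFunction.moebius v.natAbs : ℤ) : ℝ)

/-- the sum of `u(n) f(F(n) + a)` over the `1 ≤ n ≤ y`, `n ≡ s (mod q)` (for `s < q`) -/
noncomputable def sum (f : ℤ → ℝ) (u : ℕ → ℝ) (F : ℤ[X]) (a : ℤ) (q s y : ℕ) : ℝ :=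
  ∑ n ∈ (Icc 1 y).filter (fun n => n % q = s), u n * f (F.eval (n : ℤ) + a)

/-- For all `y` with `N ^ (1 / 3 + ε) ≤ y ^ deg F ≤ N`, all `Q ≤ y / (log N) ^ B` and all choices of the lengths `w q s ≤ y` the sum of the squares of the
sums `sum f u F a q s (w q s)` over all residue classes `s` to all moduli `q ≤ Q` is at most `y ^ 2 / (log N) ^ A`, for `f = λ` and for `f = μ`. -/
def Good (ε : ℝ) (A B N : ℕ) (u : ℕ → ℝ) (F : ℤ[X]) (a : ℤ) : Prop :=
  ∀ f : ℤ → ℝ, (f = lam ∨ f = mu) → ∀ y : ℕ, (N : ℝ) ^ (1 / 3 + ε) ≤ (y : ℝ) ^ F.natDegree → y ^ F.natDegree ≤ N →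
    ∀ Q : ℕ, (Q : ℝ) * Real.log N ^ B ≤ y → ∀ w : ℕ → ℕ → ℕ, (∀ q s, w q s ≤ y) →
      ∑ q ∈ Icc 1 Q, ∑ s ∈ range q, (sum f u F a q s (w q s)) ^ 2 ≤ (y : ℝ) ^ 2 / Real.log N ^ A

open Classical in
/-- **Liouville's function at `F(n) + a` in all progressions, for almost all `a` and all `y ≥ N ^ (1 / (3 d) + ε)`.** -/
theorem result (F : ℤ[X]) (hF : 1 ≤ F.natDegree) (ε : ℝ) (hε : 0 < ε) (A T : ℕ) : ∃ B N₀ : ℕ, ∀ N : ℕ, N₀ ≤ N →
    ∀ u : ℕ → ℝ, (∀ n, n ≤ N → |u n| ≤ Real.log N ^ T) →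
      (((Icc (-(N : ℤ)) N).filter (fun a => ¬ Good ε A B N u F a)).card : ℝ) ≤ N / Real.log N ^ A := by
  obtain ⟨e, he⟩ := exists_nat_gt (1 / ε)
  have he0 : (0 : ℝ) < e := lt_trans (by positivity) he
  have he1 : 1 ≤ e := by exact_mod_cast he0
  have hle : 1 / (e : ℝ) ≤ ε := by
    rw [div_le_iff₀ he0]
    rw [div_lt_iff₀ hε] at he
    linarith
  obtain ⟨B, N₀, h⟩ := Pool.Agent.helper24_UT.Ch.t_R35 F hF e (A + 1) T he1
  have hlog : Filter.Tendsto (fun N : ℕ => Real.log (N : ℝ)) Filter.atTop Filter.atTop :=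
    Real.tendsto_log_atTop.comp tendsto_natCast_atTop_atTop
  obtain ⟨N₁, hN₁⟩ := Filter.eventually_atTop.1 (hlog.eventually_ge_atTop 2)
  refine ⟨B, max (max N₀ N₁) 1, fun N hN u hu => ?_⟩
  have hNN0 : N₀ ≤ N := (le_max_left _ _).trans ((le_max_left _ _).trans hN)
  have hL : 2 ≤ Real.log N := hN₁ N ((le_max_right _ _).trans ((le_max_left _ _).trans hN))
  have hN1 : (1 : ℝ) ≤ N := by exact_mod_cast (le_max_right _ _).trans hN
  have hrange : ∀ y : ℕ, (N : ℝ) ^ (1 / 3 + ε) ≤ (y : ℝ) ^ F.natDegree → y ^ F.natDegree ≤ N →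
      Pool.Agent.helper24_UT.Yr (1 / 3) e N F.natDegree y := by
    intro y hy1 hy2
    exact ⟨(Real.rpow_le_rpow_of_exponent_le hN1 (by linarith)).trans hy1, hy2⟩
  have key := h N hNN0 u hu
  have key1 := key lam (Or.inl rfl)
  have key2 := key mu (Or.inr rfl)
  have hsub : (Icc (-(N : ℤ)) N).filter (fun a => ¬ Good ε A B N u F a) ⊆
      (Icc (-(N : ℤ)) N).filter (fun a => ∃ y : ℕ, Pool.Agent.helper24_UT.Yr (1 / 3) e N F.natDegree y ∧
        ¬ ∀ Q : ℕ, (Q : ℝ) * (Real.log N) ^ B ≤ y → ∀ w : ℕ → ℕ → ℕ, (∀ q s, w q s ≤ y) →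
          ∑ q ∈ Icc 1 Q, ∑ s ∈ range q, (∑ n ∈ (Icc 1 (w q s)).filter (fun n => n % q = s), u n * lam (F.eval (n : ℤ) + a)) ^ 2 ≤
            (y : ℝ) ^ 2 / (Real.log N) ^ (A + 1)) ∪
      (Icc (-(N : ℤ)) N).filter (fun a => ∃ y : ℕ, Pool.Agent.helper24_UT.Yr (1 / 3) e N F.natDegree y ∧
        ¬ ∀ Q : ℕ, (Q : ℝ) * (Real.log N) ^ B ≤ y → ∀ w : ℕ → ℕ → ℕ, (∀ q s, w q s ≤ y) →
          ∑ q ∈ Icc 1 Q, ∑ s ∈ range q, (∑ n ∈ (Icc 1 (w q s)).filter (fun n => n % q = s), u n * mu (F.eval (n : ℤ) + a)) ^ 2 ≤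
            (y : ℝ) ^ 2 / (Real.log N) ^ (A + 1)) := by
    intro a ha
    rw [mem_filter] at ha
    rw [mem_union, mem_filter, mem_filter]
    by_contra hcon
    push Not at hcon
    obtain ⟨h1, h2⟩ := hcon
    apply ha.2
    intro f hf y hy1 hy2 Q hQ w hw
    have hle2 : (y : ℝ) ^ 2 / (Real.log N) ^ (A + 1) ≤ (y : ℝ) ^ 2 / (Real.log N) ^ A := by
      apply div_le_div_of_nonneg_left (by positivity) (by positivity)
      exact pow_le_pow_right₀ (by linarith) (by omega)
    rcases hf with hf | hf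
    · rw [hf]
      exact (h1 ha.1 y (hrange y hy1 hy2) Q hQ w hw).trans hle2
    · rw [hf]
      exact (h2 ha.1 y (hrange y hy1 hy2) Q hQ w hw).trans hle2
  calc (((Icc (-(N : ℤ)) N).filter (fun a => ¬ Good ε A B N u F a)).card : ℝ) ≤
        N / Real.log N ^ (A + 1) + N / Real.log N ^ (A + 1) := by
        refine le_trans (Nat.cast_le.2 ((card_le_card hsub).trans (card_union_le _ _))) ?_
        push_cast
        exact add_le_add key1 key2
    _ ≤ N / Real.log N ^ A := by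
        rw [← two_mul, ← mul_div_assoc, div_le_div_iff₀ (by positivity) (by positivity)]
        calc 2 * (N : ℝ) * Real.log N ^ A ≤ Real.log N * N * Real.log N ^ A := by gcongr
          _ = N * Real.log N ^ (A + 1) := by ring

end Pool.Agent.Results.MP_d639b3_nt.AlmostAllConstantsShort
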