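import Mathlib
import Pool.Agent.TP975.LR.Le6

/-!
The Liouville function at the values of almost all binary forms: all boxes of all translated lattices at once.
-/

set_option autoImplicit false

namespace Pool.Agent.Results.MP_d639b3_nt.BinaryFormsAllBoxes

open Finset

/-- the Liouville function on the integers, `lam (-m) = lam m`, `lam 0 = 0` -/
noncomputable def lam (m : ℤ) : ℝ := if m = 0 then 0 else (-1) ^ ArithmeticFunction.cardFactors m.natAbs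

/-- the value at `(x, y)` of the binary form of degree `d` with the coefficients `a 0, ..., a d` -/
def form {d : ℕ} (a : Fin (d + 1) → ℤ) (x y : ℤ) : ℤ := ∑ c, a c * x ^ (c : ℕ) * y ^ (d - (c : ℕ))

/-- the binary forms of degree `d` with coefficients in `[-H, H]` -/
noncomputable def box (d H : ℕ) : Finset (Fin (d + 1) → ℤ) := Fintype.piFinset fun _ => Icc (-(H : ℤ)) H

/-- the sum of `lam (f (x, y))` over the `N₁ N₂` points `(x, y) = (b₁ + q n₁, b₂ + q n₂)`, `0 ≤ n₁ < N₁`, `0 ≤ n₂ < N₂`,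
of the translated lattice `(b₁, b₂) + q ℤ²` -/
noncomputable def S {d : ℕ} (f : Fin (d + 1) → ℤ) (q : ℕ) (b₁ b₂ : ℤ) (N₁ N₂ : ℕ) : ℝ :=
  ∑ n₁ ∈ range N₁, ∑ n₂ ∈ range N₂, lam (form f (b₁ + q * (n₁ : ℤ)) (b₂ + q * (n₂ : ℤ)))

/-- all these points are in the square `[-X, X]²` -/
def Inside (q : ℕ) (b₁ b₂ : ℤ) (N₁ N₂ X : ℕ) : Prop :=
  ∀ n₁ < N₁, ∀ n₂ < N₂, |b₁ + q * (n₁ : ℤ)| ≤ X ∧ |b₂ + q * (n₂ : ℤ)| ≤ X

open Classical in
/-- For all but a proportion `log ^ (-η) H` of the binary forms `f` of degree `d` with coefficients in `[-H, H]`, the sum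
of `lam (f (x, y))` over the points of `(b₁, b₂) + q ℤ²` in a box is at most `N₁ N₂ / log ^ η H`, where `N₁ N₂` is the
number of these points, for ALL `q ≥ 1`, ALL classes `(b₁, b₂)` and ALL boxes inside `[-X, X]²`, `X ≤ log ^ A H`, provided
that `q X² log ^ ε H ≤ min (N₁, N₂) ^ (2 d + 2)`. -/
theorem result (d A : ℕ) (hd : 1 ≤ d) (ε : ℝ) (hε : 0 < ε) :
    ∃ η : ℝ, 0 < η ∧ ∃ H₀ : ℕ, ∀ H : ℕ, H₀ ≤ H →
    (((box d H).filter (fun f => ∃ (q : ℕ) (b₁ b₂ : ℤ) (N₁ N₂ X : ℕ), 1 ≤ q ∧ 1 ≤ X ∧ (X : ℝ) ≤ Real.log H ^ A ∧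
      Inside q b₁ b₂ N₁ N₂ X ∧ (q : ℝ) * X ^ 2 * Real.log H ^ ε ≤ ((min N₁ N₂ : ℕ) : ℝ) ^ (2 * d + 2) ∧
      (N₁ : ℝ) * N₂ / Real.log H ^ η < |S f q b₁ b₂ N₁ N₂|)).card : ℝ) ≤ (box d H).card / Real.log H ^ η := by
  obtain ⟨η, hη, H1, h1⟩ := Pool.Agent.TP975.LR.all_boxes d A hd ε hε
  obtain ⟨H2, h2⟩ := Filter.eventually_atTop.1 (Pool.Agent.TP975.LR.tend_log.eventually_ge_atTop 1)
  refine ⟨η, hη, max H1 H2, fun H hH => ?_⟩
  obtain ⟨Bad, _, hB, hall⟩ := h1 H ((le_max_left _ _).trans hH)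
  have hL1 : 1 ≤ Real.log H := h2 H ((le_max_right _ _).trans hH)
  refine le_trans ?_ hB
  have hsub : (box d H).filter (fun f => ∃ (q : ℕ) (b₁ b₂ : ℤ) (N₁ N₂ X : ℕ), 1 ≤ q ∧ 1 ≤ X ∧
      (X : ℝ) ≤ Real.log H ^ A ∧
      Inside q b₁ b₂ N₁ N₂ X ∧ (q : ℝ) * X ^ 2 * Real.log H ^ ε ≤ ((min N₁ N₂ : ℕ) : ℝ) ^ (2 * d + 2) ∧
      (N₁ : ℝ) * N₂ / Real.log H ^ η < |S f q b₁ b₂ N₁ N₂|) ⊆ Bad := by
    intro f hf
    rw [mem_filter] at hf
    obtain ⟨hf1, q, b₁, b₂, N₁, N₂, X, hq, hX1, hX, hin, hc, hlt⟩ := hf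
    by_contra hbad
    have hpos : (0 : ℝ) < (q : ℝ) * X ^ 2 * Real.log H ^ ε := by
      have a1 : (0 : ℝ) < q := by exact_mod_cast hq
      have a2 : (0 : ℝ) < X := by exact_mod_cast hX1
      have a3 : 0 < Real.log H := by linarith
      positivity
    have hmin : 1 ≤ min N₁ N₂ := by
      by_contra h0
      have h3 : min N₁ N₂ = 0 := by omega
      rw [h3, Nat.cast_zero, zero_pow (by omega)] at hc
      linarith
    have hN1 : 1 ≤ N₁ := hmin.trans (min_le_left _ _)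
    have hN2 : 1 ≤ N₂ := hmin.trans (min_le_right _ _)
    have hm1 : ((min N₁ N₂ : ℕ) : ℝ) ^ (2 * d + 2) ≤ (N₁ : ℝ) ^ (2 * d + 2) :=
      pow_le_pow_left₀ (Nat.cast_nonneg _) (by exact_mod_cast min_le_left _ _) _
    have hm2 : ((min N₁ N₂ : ℕ) : ℝ) ^ (2 * d + 2) ≤ (N₂ : ℝ) ^ (2 * d + 2) :=
      pow_le_pow_left₀ (Nat.cast_nonneg _) (by exact_mod_cast min_le_right _ _) _
    have c1 := hin 0 (by omega) 0 (by omega)
    have c2 := hin (N₁ - 1) (by omega) (N₂ - 1) (by omega)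
    have e1 : ((N₁ - 1 : ℕ) : ℤ) = (N₁ : ℤ) - 1 := by omega
    have e2 : ((N₂ - 1 : ℕ) : ℤ) = (N₂ : ℤ) - 1 := by omega
    rw [e1, e2] at c2
    have h5 := hall f hf1 hbad q (b₁, b₂) N₁ N₂ X hq hX1 hX (by simpa using c1.1) (by simpa using c1.2) c2.1 c2.2
      (hc.trans hm1) (hc.trans hm2)
    have h6 : S f q b₁ b₂ N₁ N₂ = Pool.Agent.TP975.LR.Bx q (b₁, b₂) N₁ N₂ f := by
      unfold S Pool.Agent.TP975.LR.Bx
      refine sum_congr rfl fun n₁ _ => sum_congr rfl fun n₂ _ => ?_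
      have e3 : form f (b₁ + q * (n₁ : ℤ)) (b₂ + q * (n₂ : ℤ)) = Pool.Agent.TP975.LR.lin
          (Pool.Agent.TP975.LR.psi d (b₁ + q * (n₁ : ℤ), b₂ + q * (n₂ : ℤ))) f := by
        unfold form Pool.Agent.TP975.LR.lin Pool.Agent.TP975.LR.psi
        refine sum_congr rfl fun c _ => ?_
        ring
      rw [e3]
      rfl
    rw [h6] at hlt
    exact absurd h5 (not_le.2 hlt)
  exact_mod_cast card_le_card hsub

end Pool.Agent.Results.MP_d639b3_nt.BinaryFormsAllBoxes
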